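import Pool.Agent.K4H30.PC.Fin

/-!
# The infrared bound for percolation on `ℤ^d`: comparison with the tree

Bond percolation on `ℤ^d` with parameter `p`, two-point function `τ_p`, susceptibility `χ(p)`.

(1) For every `x ≠ 0` the sum of `τ_p` over the `2 d` neighbours of `x` is at least
`(1/p + (2d - 1) p) τ_p(x)`.  (On the tree of degree `2 d` there is equality.)

(2) For all `p` with `χ(p) < ∞` and all `k`
`(1 - D^(k)) τ_p^(k) ≤ 2 (1 - p) + max(0, (2d-1) p - 1) ((1 - p)/(d p)) (χ(p) - 1)`.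

(3) In particular the infrared bound holds with the constant `2 (1 - p)` for all `p ≤ 1/(2d - 1)`.

Proof of (1): let `N` be the number of the neighbours `y` of `x` which are connected to `0` by open
paths which avoid `x`.  Given `N`, the probability of `0 ↔ x` is `1 - (1-p)^N`, and the expected number
of neighbours of `x` connected to `0` is at least `N + (2d - N) p (1 - (1-p)^N)`; this is at least
`(1/p + (2d-1) p) (1 - (1-p)^N)` for all `N` and `p`.  For (2) the function
`u(x) = τ(x) - (mean of τ over the neighbours of x)` has the sum `0` and the transform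
`(1 - D^) τ^`, is at most `1 - p` at `0`, and at most `max(0, (2d-1) p - 1) ((1-p)/(2 d p)) τ(x)` at all
other places by (1).
-/

set_option autoImplicit false
open MeasureTheory

namespace Pool.Agent.Results.MP_54f242_pr.TreeComparison

variable {d : ℕ}

/-- The two-point function `τ_p(x) = P_p(0 ↔ x)` of nearest-neighbour bond percolation on `ℤ^d`, as
in the frozen statement; `ω (a, i)` tells whether the edge from `a` to `a + e_i` is open. -/
noncomputable def tau (p : NNReal) (hp : p ≤ 1) (x : Fin d → ℤ) : ℝ :=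
  ((Measure.infinitePi (fun _ : (Fin d → ℤ) × Fin d => (PMF.bernoulli p hp).toMeasure))
    {ω : (Fin d → ℤ) × Fin d → Bool |
      (SimpleGraph.fromRel (fun a b : Fin d → ℤ =>
        ∃ i : Fin d, b = a + Pi.single i (1 : ℤ) ∧ ω (a, i) = true)).Reachable 0 x}).toReal

/-- `τ_p^(k) = ∑_x τ_p(x) cos(k · x)` -/
noncomputable def tauHat (p : NNReal) (hp : p ≤ 1) (k : Fin d → ℝ) : ℝ :=
  ∑' x : Fin d → ℤ, tau p hp x * Real.cos (∑ i : Fin d, k i * (x i : ℝ))

/-- `D^(k) = (1/d) ∑_i cos k_i` -/
noncomputable def DHat (k : Fin d → ℝ) : ℝ := (1 / (d : ℝ)) * ∑ i : Fin d, Real.cos (k i)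

theorem result (d : ℕ) (hd : 1 ≤ d) (p : NNReal) (hp : p ≤ 1) (h0 : 0 < p) :
    (∀ x : Fin d → ℤ, x ≠ 0 → (1 / (p : ℝ) + (2 * d - 1) * p) * tau p hp x ≤
      ∑ i : Fin d, (tau p hp (x + Pi.single i 1) + tau p hp (x - Pi.single i 1))) ∧
    (Summable (fun x : Fin d → ℤ => tau p hp x) → ∀ k : Fin d → ℝ,
      tauHat p hp k * (1 - DHat k) ≤
        2 * (1 - p) + max 0 ((2 * d - 1) * (p : ℝ) - 1) * ((1 - p) / (d * p)) *
          (∑' x : Fin d → ℤ, tau p hp x - 1)) ∧
    (Summable (fun x : Fin d → ℤ => tau p hp x) → (2 * d - 1) * (p : ℝ) ≤ 1 →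
      ∀ k : Fin d → ℝ, tauHat p hp k * (1 - DHat k) ≤ 2 * (1 - p)) := by
  have h2 : Summable (fun x : Fin d → ℤ => tau p hp x) → ∀ k : Fin d → ℝ,
      tauHat p hp k * (1 - DHat k) ≤
        2 * (1 - p) + max 0 ((2 * d - 1) * (p : ℝ) - 1) * ((1 - p) / (d * p)) *
          (∑' x : Fin d → ℤ, tau p hp x - 1) := fun hs k =>
    Pool.Agent.K4H30.PC.infrared (by omega) p hp h0 hs k
  refine ⟨fun x hx => ?_, h2, fun hs hp' k => ?_⟩
  · have h := Pool.Agent.K4H30.PC.compare p hp h0 x hx
    rw [Fintype.sum_prod_type] at h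
    simp only [Fintype.sum_bool] at h
    exact h
  · have h := h2 hs k
    rw [max_eq_left (by linarith)] at h
    simpa using h

end Pool.Agent.Results.MP_54f242_pr.TreeComparison
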